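import Pool.Agent.Helper71_LeoD.Lcv
import Pool.Agent.LeoK.StrStmts

/-!
# Module APT of squad LEOD: the unit `z` and `t` with `z t³` close to 1 or to the generator of the
torsion at all primes above 3
-/

set_option autoImplicit false

open NumberField IsDedekindDomain Module Filter Topology
open Pool.Agent.Helper85_Leo Pool.Agent.LeoK Pool.Agent.LeoG Pool.Agent.LeoC Pool.Agent.LeoD
open Pool.Agent.Leo3 (Om InLoc FixF)
open Pool.Agent.LeoD.H71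

namespace Pool.Agent.LeoD.H84

/-- a prime above 3 belongs to an embedding -/
theorem exists_ov (phi : PhiStmt) (k : Type) [Field k] [NumberField k]
    (p : HeightOneSpectrum (𝓞 k)) (h3 : (3 : 𝓞 k) ∈ p.asIdeal) : ∃ ψ : k →+* Om, Ov p ψ := by
  have := p.isPrime
  exact phi k p.asIdeal h3

theorem exists_extn (K L : Type) [Field K] [NumberField K] [Field L] [NumberField L] [Algebra K L]
    (φ : K →+* Om) : ∃ ψ : L →+* Om, ψ.comp (algebraMap K L) = φ := by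
  let _ : Algebra K Om := φ.toAlgebra
  have : Algebra.IsAlgebraic K L := Algebra.IsAlgebraic.of_finite K L
  let f : L →ₐ[K] Om := IsAlgClosed.lift
  refine ⟨(f : L →+* Om), ?_⟩
  ext x
  exact f.commutes x

theorem om_two : ‖(2 : Om)‖ = 1 := by
  have h1 : (2 : Om) = algebraMap ℚ_[3] Om (2 : ℚ_[3]) :=
    (map_ofNat (algebraMap ℚ_[3] Om) 2).symm
  rw [h1, PadicAlgCl.norm_extends]
  have h2 : ‖((2 : ℕ) : ℚ_[3])‖ = 1 := by
    rw [Padic.norm_natCast_eq_one_iff]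
    decide
  simpa using h2

theorem om_three : ‖(3 : Om)‖ ≤ 1 := by
  have h1 : (3 : Om) = algebraMap ℚ_[3] Om (3 : ℚ_[3]) :=
    (map_ofNat (algebraMap ℚ_[3] Om) 3).symm
  rw [h1, PadicAlgCl.norm_extends]
  have h2 : ‖((3 : ℤ) : ℚ_[3])‖ ≤ 1 := Padic.norm_int_le_one 3
  simpa using h2

theorem om_exists : ∃ ω : Om, ω ^ 2 = -3 := IsAlgClosed.exists_pow_nat_eq (-3 : Om) (by norm_num)

/-- the local numbers `P`, `Q` -/
theorem exists_PQ (apo : ApoStmt) {k : Type} [Field k] [NumberField k]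
    (p : HeightOneSpectrum (𝓞 k)) (h3 : (3 : 𝓞 k) ∈ p.asIdeal) (ψ : k →+* Om) (hψ : Ov p ψ)
    {ω τ : Om} (hω : ω ^ 2 = -3) (hτ : Tor ψ ω τ) (M : ℕ) :
    ∃ P Q : 𝓞 k, 3 * P ^ 2 + Q ^ 2 - 3 ∈ p.asIdeal ^ M ∧
      ‖ψ (P : k) - (τ + τ⁻¹) / 2‖ ≤ (3 : ℝ)⁻¹ ^ M ∧
      ‖ψ (Q : k) - 3 * (τ - τ⁻¹) / (2 * ω)‖ ≤ (3 : ℝ)⁻¹ ^ M := by
  have hω0 : ω ≠ 0 := by
    intro h0
    rw [h0] at hω
    norm_num at hω
  have h2 : (2 : Om) ≠ 0 := two_ne_zero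
  have hτ1 : ‖τ‖ = 1 := norm_one_of_root hτ.ord
  have hτ0 : τ ≠ 0 := by
    intro h0
    rw [h0, norm_zero] at hτ1
    exact zero_ne_one hτ1
  have hτi : ‖τ⁻¹‖ = 1 := by rw [norm_inv, hτ1, inv_one]
  have hcase : ∀ ρ : Om ≃ₐ[ℚ_[3]] Om, FixF ψ ρ → (ρ τ = τ ∧ ρ ω = ω) ∨ (ρ τ = τ⁻¹ ∧ ρ ω = -ω) := by
    intro ρ hρ
    rcases rho_om hω ρ with h4 | h4
    · exact Or.inl ⟨hτ.fix ρ hρ h4, h4⟩
    · exact Or.inr ⟨hτ.inv ρ hρ h4, h4⟩
  have hA : InLoc ψ ((τ + τ⁻¹) / 2) := by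
    intro ρ hρ
    rcases hcase ρ hρ with ⟨h4, _⟩ | ⟨h4, _⟩
    · rw [map_div₀, map_add, map_inv₀, h4, map_ofNat]
    · rw [map_div₀, map_add, map_inv₀, h4, map_ofNat, inv_inv, add_comm]
  have hB : InLoc ψ (3 * (τ - τ⁻¹) / (2 * ω)) := by
    intro ρ hρ
    rcases hcase ρ hρ with ⟨h4, h5⟩ | ⟨h4, h5⟩
    · rw [map_div₀, map_mul, map_sub, map_inv₀, map_mul, h4, h5, map_ofNat, map_ofNat]
    · rw [map_div₀, map_mul, map_sub, map_inv₀, map_mul, h4, h5, map_ofNat, map_ofNat, inv_inv]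
      field_simp
      ring
  have hω1 : ‖ω‖ ≤ 1 := by
    have h5 : ‖ω‖ ^ 2 ≤ 1 := by
      rw [← norm_pow, hω, norm_neg]
      exact om_three
    by_contra hcon
    rw [not_le] at hcon
    exact absurd h5 (not_le.2 (one_lt_pow₀ hcon (by norm_num)))
  have hnA : ‖(τ + τ⁻¹) / 2‖ ≤ 1 := by
    rw [norm_div, om_two, div_one]
    exact close_add hτ1.le hτi.le
  have e3 : 3 * (τ - τ⁻¹) / (2 * ω) = -ω * (τ - τ⁻¹) / 2 := by
    field_simp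
    linear_combination (τ ^ 2 - 1) * hω
  have hnB : ‖3 * (τ - τ⁻¹) / (2 * ω)‖ ≤ 1 := by
    rw [e3, norm_div, om_two, div_one, norm_mul, norm_neg]
    exact mul_le_one₀ hω1 (norm_nonneg _) (close_sub hτ1.le hτi.le)
  obtain ⟨h6, h7⟩ := apo k p ψ h3 hψ
  obtain ⟨P, hP⟩ := h6 _ M hA hnA
  obtain ⟨Q, hQ⟩ := h6 _ M hB hnB
  refine ⟨P, Q, h7 _ M ?_, hP, hQ⟩
  have hφP : ‖ψ (P : k)‖ ≤ 1 := norm_embedding_le_one ψ P
  have hφQ : ‖ψ (Q : k)‖ ≤ 1 := norm_embedding_le_one ψ Q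
  have h8 : ψ ((3 * P ^ 2 + Q ^ 2 - 3 : 𝓞 k) : k) =
      3 * (ψ (P : k) * ψ (P : k) - (τ + τ⁻¹) / 2 * ((τ + τ⁻¹) / 2)) +
      (ψ (Q : k) * ψ (Q : k) - 3 * (τ - τ⁻¹) / (2 * ω) * (3 * (τ - τ⁻¹) / (2 * ω))) := by
    have h9 : ((3 * P ^ 2 + Q ^ 2 - 3 : 𝓞 k) : k) = 3 * (P : k) ^ 2 + (Q : k) ^ 2 - 3 := rfl
    rw [h9, map_sub, map_add, map_mul, map_pow, map_pow, map_ofNat, e3]
    field_simp
    linear_combination (τ ^ 2 - 1) ^ 2 * hω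
  rw [h8]
  refine close_add ?_ (close_mul hQ hQ hφQ hnB)
  rw [norm_mul]
  calc ‖(3 : Om)‖ * _ ≤ 1 * (3 : ℝ)⁻¹ ^ M :=
        mul_le_mul om_three (close_mul hP hP hφP hnA) (norm_nonneg _) zero_le_one
    _ = _ := one_mul _

/-- The primes above 3 are finite in number. -/
theorem finite_above (k : Type) [Field k] [NumberField k] :
    {p : HeightOneSpectrum (𝓞 k) | (3 : 𝓞 k) ∈ p.asIdeal}.Finite := by
  have h3 : Ideal.span {(3 : 𝓞 k)} ≠ 0 := by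
    rw [Ne, Ideal.zero_eq_bot, Ideal.span_singleton_eq_bot]
    exact_mod_cast (by norm_num : (3 : ℕ) ≠ 0)
  refine (Ideal.finite_factors h3).subset ?_
  intro p hp
  rw [Set.mem_ofPred_eq, Ideal.dvd_span_singleton]
  exact hp

/-- Chinese remainder theorem, in the extension. -/
theorem crt_ext {k K : Type} [Field k] [NumberField k] [Field K] [NumberField K] [Algebra k K]
    (M : ℕ) (x : HeightOneSpectrum (𝓞 k) → 𝓞 K) :
    ∃ t : 𝓞 K, ∀ p : HeightOneSpectrum (𝓞 k), (3 : 𝓞 k) ∈ p.asIdeal →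
      t - x p ∈ (p.asIdeal ^ M).map (algebraMap (𝓞 k) (𝓞 K)) := by
  classical
  obtain ⟨S, hS⟩ : ∃ S : Finset (HeightOneSpectrum (𝓞 k)), ∀ p, p ∈ S ↔ (3 : 𝓞 k) ∈ p.asIdeal :=
    ⟨(finite_above k).toFinset, fun p => by rw [Set.Finite.mem_toFinset, Set.mem_ofPred_eq]⟩
  have h1 : ∀ q : HeightOneSpectrum (𝓞 k), ∃ e : 𝓞 k, ∀ p ∈ S,
      e - (if p = q then 1 else 0) ∈ p.asIdeal ^ M := by
    intro q
    obtain ⟨y, hy⟩ := IsDedekindDomain.exists_forall_sub_mem_ideal (s := S)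
      (fun p : HeightOneSpectrum (𝓞 k) => p.asIdeal) (fun _ => M)
      (fun p _ => p.prime) (fun p _ q _ hpq h => hpq (HeightOneSpectrum.ext h))
      (fun p => if p.1 = q then 1 else 0)
    exact ⟨y, fun p hp => hy p hp⟩
  choose e he using h1
  refine ⟨∑ q ∈ S, algebraMap (𝓞 k) (𝓞 K) (e q) * x q, fun p hp => ?_⟩
  have hpS : p ∈ S := (hS p).2 hp
  have h2 : x p = ∑ q ∈ S, algebraMap (𝓞 k) (𝓞 K) (if p = q then 1 else 0) * x q := by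
    rw [Finset.sum_eq_single p]
    · rw [if_pos rfl, map_one, one_mul]
    · intro q _ hqp
      rw [if_neg (Ne.symm hqp), map_zero, zero_mul]
    · intro h
      exact absurd hpS h
  have h3 : (∑ q ∈ S, algebraMap (𝓞 k) (𝓞 K) (e q) * x q) - x p =
      ∑ q ∈ S, algebraMap (𝓞 k) (𝓞 K) (e q - (if p = q then 1 else 0)) * x q := by
    conv_lhs => rw [h2]
    rw [← Finset.sum_sub_distrib]
    refine Finset.sum_congr rfl fun q _ => ?_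
    rw [map_sub, sub_mul]
  rw [h3]
  refine Ideal.sum_mem _ fun q _ => Ideal.mul_mem_right _ _ (Ideal.mem_map_of_mem _ (he q p hpS))

/-- The conjugation preserves the ideals which come from `k`. -/
theorem conj_mem {k K : Type} [Field k] [NumberField k] [Field K] [NumberField K] [Algebra k K]
    (c : K ≃ₐ[k] K) (I : Ideal (𝓞 k)) {x y : 𝓞 K} (hy : (y : K) = c (x : K))
    (hx : x ∈ I.map (algebraMap (𝓞 k) (𝓞 K))) : y ∈ I.map (algebraMap (𝓞 k) (𝓞 K)) := by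
  have h1 : I.map (algebraMap (𝓞 k) (𝓞 K)) ≤
      (I.map (algebraMap (𝓞 k) (𝓞 K))).comap (RingOfIntegers.mapRingHom (c : K →+* K)) := by
    rw [Ideal.map_le_iff_le_comap]
    intro a ha
    rw [Ideal.mem_comap, Ideal.mem_comap]
    have h2 : RingOfIntegers.mapRingHom (c : K →+* K) (algebraMap (𝓞 k) (𝓞 K) a) =
        algebraMap (𝓞 k) (𝓞 K) a := by
      apply RingOfIntegers.ext
      show c (algebraMap k K (a : k)) = algebraMap k K (a : k)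
      exact c.commutes _
    rw [h2]
    exact Ideal.mem_map_of_mem _ ha
  have h3 := h1 hx
  rw [Ideal.mem_comap] at h3
  have h4 : RingOfIntegers.mapRingHom (c : K →+* K) x = y := by
    apply RingOfIntegers.ext
    rw [hy]
    rfl
  rwa [h4] at h3

theorem apt (lra : LraStmt) (lrb : LrbStmt) (eta : EtaStmt) (tau : TauStmt) (apo : ApoStmt)
    (lcv : LcvStmt) (dvp : DvpStmt) (phi : PhiStmt) : AptStmt := by
  intro k _ _ M
  obtain ⟨ω, hω⟩ := om_exists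
  have h1 : ∀ p : HeightOneSpectrum (𝓞 k), ∃ (ψ : k →+* Om) (τ : Om) (P Q : 𝓞 k),
      (3 : 𝓞 k) ∈ p.asIdeal → Ov p ψ ∧ Gen ψ ω τ ∧ 3 * P ^ 2 + Q ^ 2 - 3 ∈ p.asIdeal ^ M ∧
      ‖ψ (P : k) - (τ + τ⁻¹) / 2‖ ≤ (3 : ℝ)⁻¹ ^ M ∧
      ‖ψ (Q : k) - 3 * (τ - τ⁻¹) / (2 * ω)‖ ≤ (3 : ℝ)⁻¹ ^ M := by
    intro p
    by_cases h3 : (3 : 𝓞 k) ∈ p.asIdeal
    · obtain ⟨ψ, hψ⟩ := exists_ov phi k p h3
      obtain ⟨τ, hτ⟩ := tau k ψ ω
      obtain ⟨P, Q, h4, h5, h6⟩ := exists_PQ apo p h3 ψ hψ hω hτ.1 M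
      exact ⟨ψ, τ, P, Q, fun _ => ⟨hψ, hτ, h4, h5, h6⟩⟩
    · obtain ⟨ψ⟩ : Nonempty (k →+* Om) := by
        have : CharZero Om := charZero_of_injective_algebraMap (algebraMap ℚ_[3] Om).injective
        let _ : Algebra ℚ Om := DivisionRing.toRatAlgebra
        exact ⟨((IsAlgClosed.lift : k →ₐ[ℚ] Om) : k →+* Om)⟩
      exact ⟨ψ, 1, 1, 1, fun h => absurd h h3⟩
  choose ψ τ P Q hp using h1
  refine ⟨P, Q, fun p h3 => (hp p h3).2.2.1, ?_⟩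
  intro K _ _ _ m s c h hk hK
  have hs0 : (s : K) ≠ 0 := s_ne h
  have hc1 : c ≠ 1 := by
    intro h2
    have h4 := h.conj
    rw [h2, AlgEquiv.one_apply] at h4
    exact hs0 (self_eq_neg.1 h4)
  obtain ⟨n, w, a, μ, f, hw, hμ, hN, hf⟩ := lra k K c h.two hc1 hk hK
  obtain ⟨η, hη, hz⟩ := lrb k K c n w a μ f h.two hc1 hw hμ hN hf
  have hEta := eta k K m s c h η hη (fun N => by
    obtain ⟨z, hz1, _, hz3⟩ := hz N
    exact ⟨_, hz1, hz3⟩) ω hω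
  obtain ⟨z, hz1, hz2, hz3⟩ := hz M
  have h5 : ∀ p : HeightOneSpectrum (𝓞 k), ∃ (t : 𝓞 K) (ν : 𝓞 k), (3 : 𝓞 k) ∈ p.asIdeal →
      (t : K) * c (t : K) = algebraMap k K (ν : k) ∧
      ν - 1 ∈ p.asIdeal ^ M ∧ ZT m s p M (P p) (Q p) ((z : 𝓞 K) * t ^ 3) := by
    intro p
    by_cases h3 : (3 : 𝓞 k) ∈ p.asIdeal
    · obtain ⟨φ, hφ⟩ := exists_extn k K (ψ p)
      obtain ⟨h6, h7, _, h8, h9⟩ := hp p h3
      have hP : ‖φ (algebraMap k K (P p : k)) - (τ p + (τ p)⁻¹) / 2‖ ≤ (3 : ℝ)⁻¹ ^ M := by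
        rw [← hφ] at h8
        exact h8
      have hQ : ‖φ (algebraMap k K (Q p : k)) - 3 * (τ p - (τ p)⁻¹) / (2 * ω)‖ ≤
          (3 : ℝ)⁻¹ ^ M := by
        rw [← hφ] at h9
        exact h9
      rw [← hφ] at h6 h7
      obtain ⟨t, ν, h10⟩ := lcv k K m s c h p φ h3 h6 ω (τ p) hω h7 M (P p) (Q p) hP hQ (η φ)
        (hEta φ) z hz1 (hz3 φ)
      exact ⟨t, ν, fun _ => h10⟩
    · exact ⟨0, 0, fun h' => absurd h' h3⟩
  choose t ν ht using h5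
  obtain ⟨T, hT⟩ := crt_ext (k := k) (K := K) M t
  obtain ⟨V, hV⟩ := norm_int h T
  refine ⟨z, T, V, hz1, hz2, hV, fun p h3 => ?_⟩
  obtain ⟨h6, h7, h8⟩ := ht p h3
  have hTp := hT p h3
  set J : Ideal (𝓞 K) := (p.asIdeal ^ M).map (algebraMap (𝓞 k) (𝓞 K)) with hJ
  constructor
  · -- the norm
    have h9 : algebraMap (𝓞 k) (𝓞 K) (V - ν p) ∈ J := by
      obtain ⟨cT, hcT⟩ : ∃ y : 𝓞 K, (y : K) = c (T : K) :=
        ⟨RingOfIntegers.mapRingHom (c : K →+* K) T, rfl⟩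
      obtain ⟨ct, hct⟩ : ∃ y : 𝓞 K, (y : K) = c (t p : K) :=
        ⟨RingOfIntegers.mapRingHom (c : K →+* K) (t p), rfl⟩
      have h10 : cT - ct ∈ J := by
        refine conj_mem c (p.asIdeal ^ M) (x := T - t p) ?_ hTp
        have h11 : ((cT - ct : 𝓞 K) : K) = (cT : K) - (ct : K) := rfl
        have h12 : ((T - t p : 𝓞 K) : K) = (T : K) - (t p : K) := rfl
        rw [h11, h12, hcT, hct, map_sub]
      have h13 : algebraMap (𝓞 k) (𝓞 K) (V - ν p) = (T - t p) * cT + t p * (cT - ct) := by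
        apply RingOfIntegers.ext
        have h14 : ((algebraMap (𝓞 k) (𝓞 K) (V - ν p) : 𝓞 K) : K) =
            algebraMap k K (V : k) - algebraMap k K (ν p : k) := by
          rw [← map_sub]
          rfl
        have h15 : (((T - t p) * cT + t p * (cT - ct) : 𝓞 K) : K) =
            ((T : K) - (t p : K)) * (cT : K) + (t p : K) * ((cT : K) - (ct : K)) := rfl
        rw [h14, h15, ← hV, ← h6, hcT, hct]
        ring
      rw [h13]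
      exact J.add_mem (J.mul_mem_right _ hTp) (J.mul_mem_left _ h10)
    have h16 : V - ν p ∈ p.asIdeal ^ M := dvp.2.2 k K (p.asIdeal ^ M) _ h9
    have h17 : V - 1 = (V - ν p) + (ν p - 1) := by ring
    rw [h17]
    exact Ideal.add_mem _ h16 h7
  · have h9 : (z : 𝓞 K) * T ^ 3 - (z : 𝓞 K) * t p ^ 3 ∈ J := by
      have h10 : (z : 𝓞 K) * T ^ 3 - (z : 𝓞 K) * t p ^ 3 =
          (T - t p) * ((z : 𝓞 K) * (T ^ 2 + T * t p + t p ^ 2)) := by ring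
      rw [h10]
      exact J.mul_mem_right _ hTp
    rcases h8 with h8 | ⟨μ', h11, h12⟩
    · left
      have h13 : (z : 𝓞 K) * T ^ 3 - 1 = ((z : 𝓞 K) * T ^ 3 - (z : 𝓞 K) * t p ^ 3) +
          ((z : 𝓞 K) * t p ^ 3 - 1) := by ring
      rw [h13]
      exact Ideal.add_mem _ h9 h8
    · right
      refine ⟨μ', h11, ?_⟩
      have h13 : 3 * algebraMap (𝓞 k) (𝓞 K) μ' *
          ((z : 𝓞 K) * T ^ 3 - algebraMap (𝓞 k) (𝓞 K) (P p)) -
          algebraMap (𝓞 k) (𝓞 K) (Q p) * s =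
          3 * algebraMap (𝓞 k) (𝓞 K) μ' * ((z : 𝓞 K) * T ^ 3 - (z : 𝓞 K) * t p ^ 3) +
          (3 * algebraMap (𝓞 k) (𝓞 K) μ' *
          ((z : 𝓞 K) * t p ^ 3 - algebraMap (𝓞 k) (𝓞 K) (P p)) -
          algebraMap (𝓞 k) (𝓞 K) (Q p) * s) := by ring
      rw [h13]
      exact Ideal.add_mem _ (Ideal.mul_mem_left _ _ h9) h12

end Pool.Agent.LeoD.H84
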