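import Mathlib
import Pool.Agent.LeoD.AlgStmts
import Pool.Agent.Helper77_LeoK.Qua

/-!
# Module CNJ of squad LEOD: the conjugation of `K = k(s)`
-/

set_option autoImplicit false

open NumberField IsDedekindDomain Module
open Pool.Agent.LeoK Pool.Agent.LeoG Pool.Agent.LeoD

namespace Pool.Agent.LeoD.H84

/-- CNJ -/
theorem cnj : CnjStmt := by
  intro k K _ _ _ _ _ m r hK hr hn
  have h3m : ((-(3 * m) : 𝓞 k) : k) = -(3 * (m : k)) := by
    change algebraMap (𝓞 k) k (-(3 * m)) = _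
    rw [map_neg, map_mul, map_ofNat]
  have hs' : r ^ 2 = -algebraMap k K ((-(3 * m) : 𝓞 k) : k) := by
    rw [hr, h3m, map_neg, neg_neg]
  have hn' : ∀ x : k, x ^ 2 ≠ -((-(3 * m) : 𝓞 k) : k) := by
    intro x
    rw [h3m, neg_neg]
    exact hn x
  obtain ⟨c, hcs, -, -⟩ := Pool.Agent.LeoK.H77.exists_conj hK hs' hn'
  have hint : IsIntegral ℤ r := by
    have h1 : IsIntegral ℤ (r ^ 2) := by
      rw [hr]
      have h2 : IsIntegral ℤ (3 * (m : k)) := by
        have h3 : IsIntegral ℤ (algebraMap (𝓞 k) k (3 * m)) :=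
          RingOfIntegers.isIntegral_coe ((3 * m : 𝓞 k))
        rw [map_mul, map_ofNat] at h3
        exact h3
      exact map_isIntegral_int (algebraMap k K) h2
    exact IsIntegral.of_pow (by norm_num) h1
  exact ⟨⟨r, hint⟩, c, rfl, ⟨hK, hr, hn, hcs⟩⟩

end Pool.Agent.LeoD.H84
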