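import Pool.Agent.Helper33_LeoD.Fla

/-!
# Module FLB of squad LEOD: the local condition in the second case
-/

set_option autoImplicit false

open NumberField NumberField.InfinitePlace NumberField.mixedEmbedding IsDedekindDomain Module
open Pool.Agent.Helper85_Leo Pool.Agent.LeoK Pool.Agent.LeoG Pool.Agent.LeoC Pool.Agent.LeoD
open Pool.Agent.LeoD.H33

namespace Pool.Agent.LeoD.H84

section alg

variable {A : Type} [CommRing A]

/-- coefficients of `(A₀ x + A₁ y)³` -/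
def c3 (A₀ A₁ : A) : Fin 4 → A := ![A₀ ^ 3, 3 * A₀ ^ 2 * A₁, 3 * A₀ * A₁ ^ 2, A₁ ^ 3]

/-- coefficients of `(A₀ x + A₁ y)² (B₀ x + B₁ y)` -/
def c2 (A₀ A₁ B₀ B₁ : A) : Fin 4 → A :=
  ![A₀ ^ 2 * B₀, A₀ ^ 2 * B₁ + 2 * A₀ * A₁ * B₀, 2 * A₀ * A₁ * B₁ + A₁ ^ 2 * B₀, A₁ ^ 2 * B₁]

/-- the rational part of the cube of `(A₀ + B₀ s) x + (A₁ + B₁ s) y` -/
def al (m A₀ B₀ A₁ B₁ : A) (i : Fin 4) : A := c3 A₀ A₁ i + 9 * m * c2 B₀ B₁ A₀ A₁ i

theorem al_map {B : Type} [CommRing B] (f : A →+* B) (m A₀ B₀ A₁ B₁ : A)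
    (i : Fin 4) : al (f m) (f A₀) (f B₀) (f A₁) (f B₁) i = f (al m A₀ B₀ A₁ B₁ i) := by
  fin_cases i <;> simp [al, c3, c2, map_ofNat]

theorem cu_add {m s : A} (hs : s ^ 2 = 3 * m) (A₀ B₀ A₁ B₁ : A)
    (i : Fin 4) : cu (A₀ + B₀ * s) (A₁ + B₁ * s) i + cu (A₀ - B₀ * s) (A₁ - B₁ * s) i =
      2 * al m A₀ B₀ A₁ B₁ i := by
  fin_cases i <;> simp only [cu, al, c3, c2, Fin.zero_eta, Fin.mk_one, Fin.reduceFinMk,
    Matrix.cons_val]
  · linear_combination (6 * A₀ * B₀ ^ 2) * hs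
  · linear_combination (6 * B₀ ^ 2 * A₁ + 12 * A₀ * B₀ * B₁) * hs
  · linear_combination (6 * B₁ ^ 2 * A₀ + 12 * A₁ * B₀ * B₁) * hs
  · linear_combination (6 * A₁ * B₁ ^ 2) * hs

theorem third (P Q u μ m A₀ B₀ A₁ B₁ : A) (i : Fin 4) :
    18 * μ * P * ga m A₀ B₀ A₁ B₁ i - 2 * Q * al m A₀ B₀ A₁ B₁ i -
        8 * gact (hPQ P Q u) (A₀ * u) (A₁ * u) (-(μ * B₀)) (-(μ * B₁)) i =
      (2 * u - 1) * (2 * Q * (4 * u ^ 2 + 2 * u + 1) * c3 A₀ A₁ i -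
        18 * (2 * u + 1) * (μ * P * c2 A₀ A₁ B₀ B₁ i + Q * μ ^ 2 * c2 B₀ B₁ A₀ A₁ i -
          μ ^ 3 * P * c3 B₀ B₁ i)) +
      (μ ^ 2 + m) * (18 * μ * P * c3 B₀ B₁ i - 18 * Q * c2 B₀ B₁ A₀ A₁ i) := by
  fin_cases i <;> simp only [ga, al, c3, c2, gact, gval, hPQ, Fin.zero_eta, Fin.mk_one,
    Fin.reduceFinMk, Matrix.cons_val] <;> ring

end alg

/-- FLB. -/
theorem flb (dvp : DvpStmt) : FlbStmt := by
  obtain ⟨dvp1, _, dvp3⟩ := dvp
  intro k K _ _ _ _ _ B m s c hq hF p M h3 ν X Y X' Y' Z W F hν hdet hc P Q u μ hu hμ hZ hW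
  obtain ⟨hm2, h2, hb, hdiv⟩ := dvp1 k B m p hF h3
  set f : 𝓞 k →+* 𝓞 K := algebraMap (𝓞 k) (𝓞 K) with hf
  have hp := p.isPrime
  have hle : p.asIdeal ^ (M + 2 * finrank ℚ k + 2) ≤ p.asIdeal ^ M := Ideal.pow_le_pow_right (by omega)
  have hle2 : p.asIdeal ^ (M + 2 * finrank ℚ k + 2) ≤ p.asIdeal ^ 2 :=
    Ideal.pow_le_pow_right (by omega)
  have hle1 : p.asIdeal ^ 2 ≤ p.asIdeal := by
    have := Ideal.pow_le_pow_right (I := p.asIdeal) (show 1 ≤ 2 by norm_num)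
    rwa [pow_one] at this
  have hs : s ^ 2 = 3 * f m := by
    apply RingOfIntegers.ext
    have := hq.sq
    rw [map_mul] at this
    push_cast
    rw [this]
    simp only [map_ofNat]
    rfl
  have one_not : ∀ x : 𝓞 k, x - 1 ∈ p.asIdeal → x ∉ p.asIdeal := by
    intro x hx h
    apply hp.ne_top
    rw [Ideal.eq_top_iff_one]
    have := p.asIdeal.sub_mem h hx
    rwa [sub_sub_cancel] at this
  have hνp : ν ∉ p.asIdeal := one_not _ (hle1 (hle2 hν))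
  have hup : 2 * u ∉ p.asIdeal := one_not _ (hle1 (hle2 hu))
  have hμp : μ ∉ p.asIdeal := by
    intro h
    apply hm2
    have h1 : m = (μ ^ 2 + m) - μ ^ 2 := by ring
    rw [h1]
    exact Ideal.sub_mem _ (hle2 hμ) (Ideal.pow_mem_pow h 2)
  set e : 𝓞 k := 8 * (B.b : 𝓞 k) ^ 3 * ν ^ 3 with he
  set G := ga m ((B.b : 𝓞 k) * X) ((B.b : 𝓞 k) * Y) X' Y' with hG
  set L := al m ((B.b : 𝓞 k) * X) ((B.b : 𝓞 k) * Y) X' Y' with hL
  have key : ∀ i, e * μ * F i - (18 * μ * P * G i - 2 * Q * L i) ∈ p.asIdeal ^ M := by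
    intro i
    apply hdiv M
    apply dvp3 k K
    have e1 := cu_sub hs (f ((B.b : 𝓞 k) * X)) (f ((B.b : 𝓞 k) * Y)) (f X') (f Y') i
    rw [ga_map] at e1
    have e1' := cu_add hs (f ((B.b : 𝓞 k) * X)) (f ((B.b : 𝓞 k) * Y)) (f X') (f Y') i
    rw [al_map] at e1'
    have e2 := hc i
    have e3 : (B.b : 𝓞 K) * (f X + f Y * s) = f ((B.b : 𝓞 k) * X) + f ((B.b : 𝓞 k) * Y) * s := by
      rw [map_mul, map_mul, map_natCast]; ring
    have e4 : (B.b : 𝓞 K) * (f X - f Y * s) = f ((B.b : 𝓞 k) * X) - f ((B.b : 𝓞 k) * Y) * s := by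
      rw [map_mul, map_mul, map_natCast]; ring
    rw [e3, e4] at e2
    set C1 := cu (f ((B.b : 𝓞 k) * X) + f ((B.b : 𝓞 k) * Y) * s) (f X' + f Y' * s) i
    set C2 := cu (f ((B.b : 𝓞 k) * X) - f ((B.b : 𝓞 k) * Y) * s) (f X' - f Y' * s) i
    have e5 : f (3 * m * (e * μ * F i - (18 * μ * P * G i - 2 * Q * L i))) =
        s * (C1 * (3 * f μ * (W - f P) + f Q * s)) - s * (C2 * (3 * f μ * (Z - f P) - f Q * s)) := by
      have e6 : f (e * μ * F i) * s = f μ * (8 * (B.b : 𝓞 K) ^ 3 * f (ν ^ 3 * F i) * s) := by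
        rw [he]
        simp only [map_mul, map_pow, map_natCast, map_ofNat]
        ring
      have e7 : f (3 * m * (e * μ * F i - (18 * μ * P * G i - 2 * Q * L i))) =
          s * (f (e * μ * F i) * s) -
            (18 * f μ * f P * f (G i) - 2 * f Q * f (L i)) * s ^ 2 := by
        have e8 : f (3 * m * (e * μ * F i - (18 * μ * P * G i - 2 * Q * L i))) =
            3 * f m * (f (e * μ * F i) - (18 * f μ * f P * f (G i) - 2 * f Q * f (L i))) := by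
          simp only [map_mul, map_sub, map_ofNat]
        rw [e8]
        linear_combination (-(f (e * μ * F i)) +
          (18 * f μ * f P * f (G i) - 2 * f Q * f (L i))) * hs
      rw [e7, e6, e2]
      linear_combination (3 * f μ * f P * s) * e1 - (f Q * s ^ 2) * e1'
    rw [e5]
    exact Ideal.sub_mem _ (Ideal.mul_mem_left _ _ (Ideal.mul_mem_left _ _ hW))
      (Ideal.mul_mem_left _ _ (Ideal.mul_mem_left _ _ hZ))
  have hdet' : (B.b : 𝓞 k) * X * u * (-(μ * Y')) - X' * u * (-(μ * ((B.b : 𝓞 k) * Y))) =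
      2 * u * ((B.b : 𝓞 k) ^ 3 * μ * ν) := by
    linear_combination (-((B.b : 𝓞 k) * u * μ)) * hdet
  refine ⟨(B.b : 𝓞 k) * X * u, X' * u, -(μ * ((B.b : 𝓞 k) * Y)), -(μ * Y'), ?_, fun i => ?_⟩
  · rw [hdet']
    intro h
    rcases hp.mem_or_mem h with h | h
    · exact hup h
    · rcases hp.mem_or_mem h with h | h
      · rcases hp.mem_or_mem h with h | h
        · exact hb (hp.mem_of_pow_mem _ h)
        · exact hμp h
      · exact hνp h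
  · rw [hdet']
    set g := gact (hPQ P Q u) ((B.b : 𝓞 k) * X * u) (X' * u) (-(μ * ((B.b : 𝓞 k) * Y)))
      (-(μ * Y')) i with hg
    have e0 := third P Q u μ m ((B.b : 𝓞 k) * X) ((B.b : 𝓞 k) * Y) X' Y' i
    rw [← hG, ← hL, ← hg] at e0
    have hu' := hle hu
    have hμ' := hle hμ
    have hν' := hle hν
    set R1 := 2 * Q * (4 * u ^ 2 + 2 * u + 1) * c3 ((B.b : 𝓞 k) * X) X' i -
        18 * (2 * u + 1) * (μ * P * c2 ((B.b : 𝓞 k) * X) X' ((B.b : 𝓞 k) * Y) Y' i +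
          Q * μ ^ 2 * c2 ((B.b : 𝓞 k) * Y) Y' ((B.b : 𝓞 k) * X) X' i -
          μ ^ 3 * P * c3 ((B.b : 𝓞 k) * Y) Y' i)
    set R2 := 18 * μ * P * c3 ((B.b : 𝓞 k) * Y) Y' i -
      18 * Q * c2 ((B.b : 𝓞 k) * Y) Y' ((B.b : 𝓞 k) * X) X' i
    set T := 2 * u * ((B.b : 𝓞 k) ^ 3 * μ * ν) * F i - g with hT
    have e8 : 8 * T = (e * μ * F i - (18 * μ * P * G i - 2 * Q * L i)) +
        (2 * u - 1) * (8 * (B.b : 𝓞 k) ^ 3 * μ * ν * F i + R1) -
        (ν - 1) * (8 * (B.b : 𝓞 k) ^ 3 * μ * ν * F i * (ν + 1)) + (μ ^ 2 + m) * R2 := by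
      rw [hT, he]
      linear_combination e0
    have e9 : T = u ^ 3 * (8 * T) - (2 * u - 1) * ((4 * u ^ 2 + 2 * u + 1) * T) := by ring
    have h8 : 8 * T ∈ p.asIdeal ^ M := by
      rw [e8]
      exact Ideal.add_mem _ (Ideal.sub_mem _ (Ideal.add_mem _ (key i)
        (Ideal.mul_mem_right _ _ hu')) (Ideal.mul_mem_right _ _ hν'))
        (Ideal.mul_mem_right _ _ hμ')
    rw [e9]
    exact Ideal.sub_mem _ (Ideal.mul_mem_left _ _ h8) (Ideal.mul_mem_right _ _ hu')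

end Pool.Agent.LeoD.H84
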