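import Mathlib
import Pool.Agent.LeoD.AlgStmts

/-!
# Module HCY of squad LEOD: the form `h`
-/

set_option autoImplicit false

open NumberField IsDedekindDomain Module
open Pool.Agent.LeoK Pool.Agent.LeoG Pool.Agent.LeoD

namespace Pool.Agent.LeoD.H84

/-- HCY -/
theorem hcy : HcyStmt := by
  intro k _ _ p M P Q i h1 h2
  have key : ∀ a b : 𝓞 k, a * (3 * P ^ 2 + Q ^ 2 - 3) + b * (2 * i - 1) ∈ p.asIdeal ^ M :=
    fun a b => Ideal.add_mem _ (Ideal.mul_mem_left _ _ h1) (Ideal.mul_mem_left _ _ h2)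
  refine ⟨?_, ?_⟩
  · have e : mm (hPQ P Q i) + 3 ^ 8 =
        (-(729 * (3 * P ^ 2 + Q ^ 2 + 3))) * (3 * P ^ 2 + Q ^ 2 - 3) +
          (-(729 * Q ^ 4 * (4 * i ^ 2 + 2 * i + 1) + 6561 * P ^ 4 * (2 * i + 1) +
            P ^ 2 * Q ^ 2 * (-(4374 * i ^ 3) + 10935 * i ^ 2 + 8748 * i + 4374))) * (2 * i - 1) := by
      simp only [mm, dsc, hPQ, Matrix.cons_val_zero, Matrix.cons_val_one, Matrix.cons_val]
      ring
    rw [e]
    exact key _ _
  · have e0 : gact (hPQ P Q i) (-2) 3 (-4) (-2) 0 - 64 * hPQ P Q i 0 =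
        0 * (3 * P ^ 2 + Q ^ 2 - 3) + (-(144 * (Q + P * (2 * i + 1)))) * (2 * i - 1) := by
      simp only [gact, gval, hPQ, Matrix.cons_val_zero, Matrix.cons_val_one, Matrix.cons_val]
      ring
    have e1 : gact (hPQ P Q i) (-2) 3 (-4) (-2) 1 - 64 * hPQ P Q i 1 =
        0 * (3 * P ^ 2 + Q ^ 2 - 3) + (72 * Q - 216 * (P * (2 * i + 1))) * (2 * i - 1) := by
      simp only [gact, gval, hPQ, Matrix.cons_val_zero, Matrix.cons_val_one, Matrix.cons_val]
      ring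
    have e2 : gact (hPQ P Q i) (-2) 3 (-4) (-2) 2 - 64 * hPQ P Q i 2 =
        0 * (3 * P ^ 2 + Q ^ 2 - 3) + (-(108 * Q + 108 * (P * (2 * i + 1)))) * (2 * i - 1) := by
      simp only [gact, gval, hPQ, Matrix.cons_val_zero, Matrix.cons_val_one, Matrix.cons_val]
      ring
    have e3 : gact (hPQ P Q i) (-2) 3 (-4) (-2) 3 - 64 * hPQ P Q i 3 =
        0 * (3 * P ^ 2 + Q ^ 2 - 3) + (54 * Q - 162 * (P * (2 * i + 1))) * (2 * i - 1) := by
      simp only [gact, gval, hPQ, Matrix.cons_val_zero, Matrix.cons_val_one, Matrix.cons_val]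
      ring
    intro j
    fin_cases j
    · exact e0 ▸ key _ _
    · exact e1 ▸ key _ _
    · exact e2 ▸ key _ _
    · exact e3 ▸ key _ _

end Pool.Agent.LeoD.H84
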