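import Pool.Agent.LeoD.AlgStmts
import Pool.Agent.Helper75_LeoK.LeorA
import Pool.Agent.Helper65_Leo3.Crt

/-!
# Module LRB of squad LEOD: units close to roots of unity, which are not cubes
-/

set_option autoImplicit false

open NumberField IsDedekindDomain Module Filter Topology
open Pool.Agent.Helper85_Leo Pool.Agent.LeoK Pool.Agent.LeoG Pool.Agent.LeoC Pool.Agent.LeoD
open Pool.Agent.Leo3 (Om InLoc FixF CrtStmt)
open Pool.Agent.Leo3.H93 Pool.Agent.LeoK.H75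

namespace Pool.Agent.LeoD.H84

/-- roots of elements close to `1`, with the distance from `1` -/
theorem crt_iter2 {L : Type} [Field L] (φ : L →+* Om) (m : ℕ) (hm : 2 ≤ m) (n : ℕ) :
    ∀ w : Om, InLoc φ w → ‖w - 1‖ ≤ (3 : ℝ)⁻¹ ^ (n + m) →
      ∃ t : Om, t ^ (3 ^ n) = w ∧ ‖t - 1‖ ≤ (3 : ℝ)⁻¹ ^ m := by
  induction n with
  | zero =>
    intro w hw hn
    exact ⟨w, by simp, by simpa using hn⟩
  | succ n ih =>
    intro w hw hn
    obtain ⟨w', h1, h2, h3⟩ := Pool.Agent.Leo3.H65.crt L φ w hw (n + 1 + m) (by omega) hn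
    obtain ⟨t, h5, h6⟩ := ih w' h1 (by
      have : n + 1 + m - 1 = n + m := by omega
      rwa [this] at h3)
    refine ⟨t, ?_, h6⟩
    rw [pow_succ, pow_mul, h5, h2]

section norm1

variable {k K : Type} [Field k] [NumberField k] [Field K] [NumberField K] [Algebra k K]

theorem n1_iff (c : K ≃ₐ[k] K) (u : (𝓞 K)ˣ) :
    u * cj c u = 1 ↔ ((u : 𝓞 K) : K) * c ((u : 𝓞 K) : K) = 1 := by
  constructor
  · intro h
    have h8 := congrArg (fun x : (𝓞 K)ˣ => ((x : 𝓞 K) : K)) h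
    rw [← cj_coe]
    simpa using h8
  · intro h
    apply unit_ext
    have : (((u * cj c u : (𝓞 K)ˣ) : 𝓞 K) : K) = ((u : 𝓞 K) : K) * c ((u : 𝓞 K) : K) := by
      simp [cj_coe]
    rw [this, h]
    simp

theorem n1_mul {c : K ≃ₐ[k] K} {u v : (𝓞 K)ˣ} (hu : u * cj c u = 1) (hv : v * cj c v = 1) :
    (u * v) * cj c (u * v) = 1 := by
  rw [map_mul, mul_mul_mul_comm, hu, hv, one_mul]

theorem n1_pow {c : K ≃ₐ[k] K} {u : (𝓞 K)ˣ} (hu : u * cj c u = 1) (n : ℕ) :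
    u ^ n * cj c (u ^ n) = 1 := by
  rw [map_pow, ← mul_pow, hu, one_pow]

theorem n1_zpow {c : K ≃ₐ[k] K} {u : (𝓞 K)ˣ} (hu : u * cj c u = 1) (n : ℤ) :
    u ^ n * cj c (u ^ n) = 1 := by
  rw [map_zpow, ← mul_zpow, hu, one_zpow]

/-- The unit `z` attached to `x`. -/
theorem core {c : K ≃ₐ[k] K} (hcc : ∀ u : (𝓞 K)ˣ, cj c (cj c u) = u)
    (f : (𝓞 K)ˣ →* Multiplicative ℤ) (J a W : ℕ)
    (hW : Units.torsionOrder K = 3 ^ a * W) (hW3 : ¬ 3 ∣ W) (x : (𝓞 K)ˣ)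
    (hx : x * cj c x = 1) (hfx : ¬ (3 : ℤ) ^ (J + 1) ∣ Multiplicative.toAdd (f x)) :
    ∃ z : (𝓞 K)ˣ, z * cj c z = 1 ∧ (∀ y : K, y ^ 3 ≠ ((z : 𝓞 K) : K)) ∧
      ∃ m : ℕ, z ^ 3 ^ (J + a) = x ^ m := by
  classical
  have htors : ∀ e : (𝓞 K)ˣ, e ∈ Units.torsion K → e ^ (3 ^ a * W) = 1 := by
    intro e he
    rw [← hW]
    have h1 := pow_card_eq_one' (x := (⟨e, he⟩ : Units.torsion K))
    have h2 : ((⟨e, he⟩ : Units.torsion K) ^ Nat.card (Units.torsion K) : Units.torsion K).1 =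
        (1 : Units.torsion K).1 := congrArg Subtype.val h1
    exact h2
  have hf0 : ∀ e : (𝓞 K)ˣ, e ∈ Units.torsion K → Multiplicative.toAdd (f e) = 0 := by
    intro e he
    have h1 := congrArg (fun y => Multiplicative.toAdd (f y)) (htors e he)
    simp only [map_pow, map_one, toAdd_pow, toAdd_one, nsmul_eq_mul] at h1
    rcases mul_eq_zero.1 h1 with h2 | h2
    · exfalso
      have h3 : (3 ^ a * W : ℕ) = 0 := by exact_mod_cast h2
      rw [← hW] at h3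
      exact Units.torsionOrder_ne_zero K h3
    · exact h2
  let Pr : ℕ → Prop := fun i => ∃ e y : (𝓞 K)ˣ, e * cj c e = 1 ∧ y * cj c y = 1 ∧
    e ∈ Units.torsion K ∧ x = e * y ^ 3 ^ i
  have hP0 : Pr 0 := ⟨1, x, by simp, hx, one_mem _, by simp⟩
  have hPle : ∀ i, Pr i → i ≤ J := by
    rintro i ⟨e, y, -, -, he, hxe⟩
    by_contra hlt
    push Not at hlt
    apply hfx
    rw [hxe, map_mul, toAdd_mul, hf0 e he, zero_add, map_pow, toAdd_pow, nsmul_eq_mul]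
    push_cast
    exact Dvd.dvd.mul_right (pow_dvd_pow _ (by omega)) _
  set i := Nat.findGreatest Pr J with hi
  have hPi : Pr i := Nat.findGreatest_spec (Nat.zero_le _) hP0
  have hmax : ∀ j, i < j → ¬ Pr j := by
    intro j hj hPj
    exact Nat.findGreatest_is_greatest hj (hPle j hPj) hPj
  obtain ⟨e, y, he1, hy1, he, hxe⟩ := hPi
  have hiJ : i ≤ J := Nat.findGreatest_le _
  refine ⟨y ^ W, n1_pow hy1 W, ?_, W * 3 ^ (J + a - i), ?_⟩
  · intro g hg
    obtain ⟨g', hg', hg3⟩ := unit_cube (y ^ W) g hg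
    -- make the norm one
    set x0 := g' * cj c g' with hx0
    have hx03 : x0 ^ 3 = 1 := by
      rw [hx0, mul_pow, ← map_pow, hg3]
      exact n1_pow hy1 W
    have hcx0 : cj c x0 = x0 := by
      rw [hx0, map_mul, hcc, mul_comm]
    set g2 := g' * x0 with hg2
    have hg23 : g2 ^ 3 = y ^ W := by
      rw [hg2, mul_pow, hg3, hx03, mul_one]
    have hg2n : g2 * cj c g2 = 1 := by
      rw [hg2, map_mul, hcx0]
      have : g' * x0 * (cj c g' * x0) = (g' * cj c g') * x0 ^ 2 := by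
        rw [pow_two]
        simp only [mul_comm, mul_left_comm, mul_assoc]
      rw [this, ← hx0, ← pow_succ', hx03]
    -- Bezout
    have hcop : IsCoprime (W : ℤ) (3 : ℤ) := by
      have h1 : Nat.Coprime W 3 := by
        rw [Nat.coprime_comm]
        exact (Nat.Prime.coprime_iff_not_dvd Nat.prime_three).2 hW3
      exact_mod_cast Nat.isCoprime_iff_coprime.2 h1
    obtain ⟨A, C, hAC⟩ := hcop
    have hy : y = (g2 ^ A * y ^ C) ^ 3 := by
      have h1 : y = y ^ (A * (W : ℤ) + C * 3) := by rw [hAC, zpow_one]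
      have h2 : (g2 ^ A * y ^ C) ^ 3 = (g2 ^ 3) ^ A * y ^ (C * 3) := by
        rw [mul_pow]
        congr 1
        · rw [← zpow_natCast, ← zpow_mul, mul_comm, zpow_mul, zpow_natCast]
        · rw [← zpow_natCast, ← zpow_mul]
          rfl
      rw [h2, hg23]
      conv_lhs => rw [h1]
      rw [zpow_add]
      congr 1
      rw [mul_comm, zpow_mul, zpow_natCast]
    apply hmax (i + 1) (Nat.lt_succ_self i)
    refine ⟨e, g2 ^ A * y ^ C, he1, n1_mul (n1_zpow hg2n A) (n1_zpow hy1 C), he, ?_⟩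
    rw [pow_succ', pow_mul, ← hy]
    exact hxe
  · have h1 : y ^ 3 ^ i = e⁻¹ * x := by rw [hxe]; group
    have h2 : e ^ (W * 3 ^ (J + a - i)) = 1 := by
      have h3 : W * 3 ^ (J + a - i) = (3 ^ a * W) * 3 ^ (J - i) := by
        have : J + a - i = a + (J - i) := by omega
        rw [this, pow_add]
        ring
      rw [h3, pow_mul, htors e he, one_pow]
    calc (y ^ W) ^ 3 ^ (J + a) = (y ^ 3 ^ i) ^ (W * 3 ^ (J + a - i)) := by
          rw [← pow_mul, ← pow_mul]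
          congr 1
          have : J + a = i + (J + a - i) := by omega
          conv_lhs => rw [this, pow_add]
          ring
      _ = x ^ (W * 3 ^ (J + a - i)) := by
          rw [h1, mul_pow, inv_pow, h2, inv_one, one_mul]

end norm1

/-- LRB. -/
theorem lrb : LrbStmt := by
  classical
  intro k K _ _ _ _ _ c n w a μ f hK hc hw hμ hdiv hβ
  have : FiniteDimensional k K := Module.finite_of_finrank_pos (by omega)
  have : Algebra.IsQuadraticExtension k K := ⟨hK⟩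
  have : IsGalois k K := inferInstance
  have hcc0 : c * c = 1 := by
    have h1 : Nat.card (K ≃ₐ[k] K) = 2 := by rw [IsGalois.card_aut_eq_finrank, hK]
    have h2 := pow_card_eq_one' (x := c)
    rw [h1, pow_two] at h2
    exact h2
  have hcc : ∀ u : (𝓞 K)ˣ, cj c (cj c u) = u := by
    intro u
    apply unit_ext
    rw [cj_coe, cj_coe]
    have := congrArg (fun g : K ≃ₐ[k] K => g ((u : 𝓞 K) : K)) hcc0
    simpa using this
  have hw1 : ∀ i, w i * cj c (w i) = 1 := fun i => (n1_iff c (w i)).2 (hw i)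
  set β : PadicInt 3 := ∑ i, ((Multiplicative.toAdd (f (w i)) : ℤ) : PadicInt 3) * a i with hβd
  obtain ⟨J, hJ⟩ : ∃ J : ℕ, (3 : ℝ) ^ (-((J + 1 : ℕ) : ℤ)) < ‖β‖ := by
    obtain ⟨J, hJ⟩ := exists_pow_lt_of_lt_one (norm_pos_iff.2 hβ)
      (show (3 : ℝ)⁻¹ < 1 by norm_num)
    refine ⟨J, lt_of_le_of_lt ?_ hJ⟩
    rw [zpow_neg, zpow_natCast, ← inv_pow]
    exact pow_le_pow_of_le_one (by norm_num) (by norm_num) (Nat.le_succ J)
  set x : ℕ → (𝓞 K)ˣ := fun l => ∏ i, w i ^ μ l i with hxd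
  have hx1 : ∀ l, x l * cj c (x l) = 1 := by
    intro l
    simp only [hxd]
    rw [map_prod, ← Finset.prod_mul_distrib]
    exact Finset.prod_eq_one fun i _ => n1_zpow (hw1 i) _
  have hfx : ∀ l, Multiplicative.toAdd (f (x l)) =
      ∑ i, Multiplicative.toAdd (f (w i)) * μ l i := by
    intro l
    simp only [hxd]
    rw [map_prod, toAdd_prod]
    refine Finset.sum_congr rfl fun i _ => ?_
    rw [map_zpow, toAdd_zpow, smul_eq_mul, mul_comm]
  have hlim : Tendsto (fun l => ((Multiplicative.toAdd (f (x l)) : ℤ) : PadicInt 3)) atTop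
      (𝓝 β) := by
    have h1 : (fun l => ((Multiplicative.toAdd (f (x l)) : ℤ) : PadicInt 3)) =
        fun l => ∑ i, ((Multiplicative.toAdd (f (w i)) : ℤ) : PadicInt 3) *
          ((μ l i : ℤ) : PadicInt 3) := by
      funext l
      rw [hfx l]
      push_cast
      rfl
    rw [h1]
    exact tendsto_finset_sum _ fun i _ => (hμ i).const_mul _
  have hev : ∀ᶠ l in atTop, ¬ (3 : ℤ) ^ (J + 1) ∣ Multiplicative.toAdd (f (x l)) := by
    have h1 := hlim.norm.eventually (lt_mem_nhds hJ)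
    refine h1.mono fun l hl hd => ?_
    have h2 := (PadicInt.norm_int_le_pow_iff_dvd (p := 3)
      (k := Multiplicative.toAdd (f (x l))) (n := J + 1)).2 (by exact_mod_cast hd)
    exact absurd h2 (not_le.2 (by simpa using hl))
  obtain ⟨a', W, hW3, hW⟩ := Nat.exists_eq_pow_mul_and_not_dvd
    (Units.torsionOrder_ne_zero K) 3 (by norm_num)
  have key : ∀ N : ℕ, ∃ (z : (𝓞 K)ˣ) (η : (K →+* Om) → Om),
      ((z : 𝓞 K) : K) * c ((z : 𝓞 K) : K) = 1 ∧ (∀ y : K, y ^ 3 ≠ ((z : 𝓞 K) : K)) ∧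
      (∀ φ, η φ ^ 3 ^ (J + a') = 1) ∧
      ∀ φ : K →+* Om, ‖φ ((z : 𝓞 K) : K) - η φ‖ ≤ (3 : ℝ)⁻¹ ^ N := by
    intro N
    obtain ⟨l, hl1, hl2⟩ := (hev.and (hdiv (J + a' + (N + 2)))).exists
    obtain ⟨z, hz1, hz2, m, hz3⟩ := core hcc f J a' W hW hW3 (x l) (hx1 l) hl1
    have hdvd : ((3 : ℕ) : 𝓞 K) ^ (J + a' + (N + 2)) ∣
        ((z ^ 3 ^ (J + a') : (𝓞 K)ˣ) : 𝓞 K) - 1 := by
      rw [hz3]
      refine dvd_trans (by exact_mod_cast hl2) (?_ : ((x l : 𝓞 K) - 1) ∣ _)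
      have := sub_dvd_pow_sub_pow (x l : 𝓞 K) 1 m
      rw [one_pow] at this
      exact_mod_cast this
    have hnorm := fun φ : K →+* Om => norm_sub_one_le φ _ _ hdvd
    have ht : ∀ φ : K →+* Om, ∃ t : Om, t ^ 3 ^ (J + a') =
        φ (((z ^ 3 ^ (J + a') : (𝓞 K)ˣ) : 𝓞 K) : K) ∧ ‖t - 1‖ ≤ (3 : ℝ)⁻¹ ^ (N + 2) :=
      fun φ => crt_iter2 φ (N + 2) (by omega) (J + a') _ (InLoc.map _) (hnorm φ)
    choose t ht1 ht2 using ht
    have hz0 : ∀ φ : K →+* Om, φ ((z : 𝓞 K) : K) ≠ 0 := by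
      intro φ
      rw [_root_.map_ne_zero]
      exact unit_ne _
    have ht3 : ∀ φ : K →+* Om, t φ ^ 3 ^ (J + a') = φ ((z : 𝓞 K) : K) ^ 3 ^ (J + a') := by
      intro φ
      rw [ht1 φ, ← map_pow]
      congr 1
    have ht0 : ∀ φ : K →+* Om, t φ ≠ 0 := by
      intro φ h0
      have h1 := ht3 φ
      rw [h0, zero_pow (pow_ne_zero _ (by norm_num))] at h1
      exact pow_ne_zero _ (hz0 φ) h1.symm
    have hη : ∀ φ : K →+* Om, (φ ((z : 𝓞 K) : K) / t φ) ^ 3 ^ (J + a') = 1 := by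
      intro φ
      rw [div_pow, ← ht3 φ, div_self (pow_ne_zero _ (ht0 φ))]
    refine ⟨z, fun φ => φ ((z : 𝓞 K) : K) / t φ, (n1_iff c z).1 hz1, hz2, hη, ?_⟩
    intro φ
    have hn1 : ‖φ ((z : 𝓞 K) : K) / t φ‖ = 1 := by
      have h4 : ‖φ ((z : 𝓞 K) : K) / t φ‖ ^ 3 ^ (J + a') = 1 := by
        rw [← norm_pow, hη φ, norm_one]
      exact (pow_eq_one_iff_of_nonneg (norm_nonneg _) (pow_ne_zero _ (by norm_num))).1 h4
    have h5 : φ ((z : 𝓞 K) : K) - φ ((z : 𝓞 K) : K) / t φ =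
        (φ ((z : 𝓞 K) : K) / t φ) * (t φ - 1) := by
      field_simp [ht0 φ]
    rw [h5, norm_mul, hn1, one_mul]
    refine (ht2 φ).trans ?_
    exact pow_le_pow_of_le_one (by norm_num) (by norm_num) (by omega)
  choose z η hz1 hz2 hη1 hη2 using key
  -- pigeonhole
  let T : Type := {ζ : Om // ζ ^ 3 ^ (J + a') = 1}
  have hT : Finite T := by
    have h1 : ({ζ : Om | ζ ^ 3 ^ (J + a') = 1}).Finite := by
      refine (Polynomial.nthRootsFinset (3 ^ (J + a')) (1 : Om)).finite_toSet.subset ?_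
      intro ζ hζ
      exact (Polynomial.mem_nthRootsFinset (pow_pos (by norm_num) _) 1).2 hζ
    exact h1.to_subtype
  let F : ℕ → ((K →+* Om) → T) := fun N φ => ⟨η N φ, hη1 N φ⟩
  have hfin : Finite ((K →+* Om) → T) := by
    have : Finite (K →+* Om) := inferInstance
    exact Pi.finite
  obtain ⟨y, hy⟩ := Finite.exists_infinite_fiber F
  refine ⟨fun φ => (y φ).1, fun φ => ⟨_, (y φ).2⟩, fun N => ?_⟩
  obtain ⟨N', hN', hlt⟩ := (Set.infinite_coe_iff.1 hy).exists_gt N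
  have hFy : F N' = y := hN'
  refine ⟨z N', hz1 N', hz2 N', fun φ => ?_⟩
  have h1 : (y φ).1 = η N' φ := by rw [← hFy]
  show ‖φ (((z N' : (𝓞 K)ˣ) : 𝓞 K) : K) - (y φ).1‖ ≤ (3 : ℝ)⁻¹ ^ N
  rw [h1]
  exact (hη2 N' φ).trans (pow_le_pow_of_le_one (by norm_num) (by norm_num) hlt.le)

end Pool.Agent.LeoD.H84
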