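import Mathlib
import Pool.Agent.LeoD.AlgStmts

/-!
# Module TAU of squad LEOD: a generator of the local torsion modulo cubes
-/

set_option autoImplicit false

open NumberField IsDedekindDomain Module
open Pool.Agent.LeoK Pool.Agent.LeoG Pool.Agent.LeoD
open Pool.Agent.Leo3 (Om InLoc FixF)

namespace Pool.Agent.LeoD.H84

variable {k : Type} [Field k] {ψ : k →+* Om} {ω : Om}

theorem tor_one : Tor ψ ω 1 :=
  ⟨⟨0, one_pow _⟩, fun ρ _ _ => map_one ρ, fun ρ _ _ => by rw [map_one, inv_one]⟩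

theorem tor_pow {ζ : Om} (h : Tor ψ ω ζ) (n : ℕ) : Tor ψ ω (ζ ^ n) := by
  obtain ⟨⟨j, hj⟩, h1, h2⟩ := h
  refine ⟨⟨j, ?_⟩, fun ρ a b => ?_, fun ρ a b => ?_⟩
  · rw [← pow_mul, mul_comm, pow_mul, hj, one_pow]
  · rw [map_pow, h1 ρ a b]
  · rw [map_pow, h2 ρ a b, inv_pow]

theorem tor_inv {ζ : Om} (h : Tor ψ ω ζ) : Tor ψ ω ζ⁻¹ := by
  obtain ⟨⟨j, hj⟩, h1, h2⟩ := h
  refine ⟨⟨j, ?_⟩, fun ρ a b => ?_, fun ρ a b => ?_⟩
  · rw [inv_pow, hj, inv_one]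
  · rw [map_inv₀, h1 ρ a b]
  · rw [map_inv₀, h2 ρ a b]

theorem tor_prim {ζ : Om} (h : Tor ψ ω ζ) : ∃ a : ℕ, IsPrimitiveRoot ζ (3 ^ a) := by
  obtain ⟨j, hj⟩ := h.ord
  obtain ⟨a, -, ha⟩ := (Nat.dvd_prime_pow Nat.prime_three).1 (orderOf_dvd_of_pow_eq_one hj)
  exact ⟨a, ha ▸ IsPrimitiveRoot.orderOf ζ⟩

/-- TAU -/
theorem tau : TauStmt := by
  intro k _ ψ ω
  by_cases hall : ∀ η : Om, Tor ψ ω η → ∃ g : Om, Tor ψ ω g ∧ η = g ^ 3
  · exact ⟨1, tor_one, fun η hη => by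
      obtain ⟨g, hg, e⟩ := hall η hη
      exact ⟨g, hg, Or.inl e⟩⟩
  · push Not at hall
    obtain ⟨τ, hτ, hn⟩ := hall
    obtain ⟨a, ha⟩ := tor_prim hτ
    refine ⟨τ, hτ, fun η hη => ?_⟩
    obtain ⟨b, hb⟩ := tor_prim hη
    have hba : b ≤ a := by
      by_contra hlt
      push Not at hlt
      have hp : IsPrimitiveRoot (η ^ 3 ^ (b - a)) (3 ^ a) :=
        hb.pow (pow_pos (by norm_num) _) (by rw [← pow_add]; congr 1; omega)
      have : NeZero (3 ^ a) := ⟨pow_ne_zero _ (by norm_num)⟩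
      obtain ⟨i, -, hi⟩ := hp.eq_pow_of_pow_eq_one ha.pow_eq_one
      refine hn (η ^ (3 ^ (b - a - 1) * i)) (tor_pow hη _) ?_
      rw [← hi, ← pow_mul, ← pow_mul]
      congr 1
      have : b - a = (b - a - 1) + 1 := by omega
      conv_lhs => rw [this]
      ring
    have : NeZero (3 ^ a) := ⟨pow_ne_zero _ (by norm_num)⟩
    have h1 : η ^ 3 ^ a = 1 := by
      have : (3 : ℕ) ^ a = 3 ^ b * 3 ^ (a - b) := by rw [← pow_add]; congr 1; omega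
      rw [this, pow_mul, hb.pow_eq_one, one_pow]
    obtain ⟨l, -, hl⟩ := ha.eq_pow_of_pow_eq_one h1
    have hτ0 : τ ≠ 0 := ha.ne_zero (pow_ne_zero _ (by norm_num))
    have h3 := Nat.div_add_mod l 3
    have h4 := Nat.mod_lt l (show 3 > 0 by norm_num)
    have h5 : l % 3 = 0 ∨ l % 3 = 1 ∨ l % 3 = 2 := by omega
    rcases h5 with h | h | h
    · refine ⟨τ ^ (l / 3), tor_pow hτ _, Or.inl ?_⟩
      rw [← hl, ← pow_mul]; congr 1; omega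
    · refine ⟨τ ^ (l / 3), tor_pow hτ _, Or.inr (Or.inl ?_)⟩
      rw [← hl, ← pow_mul, ← pow_succ]; congr 1; omega
    · refine ⟨τ ^ (l / 3 + 1), tor_pow hτ _, Or.inr (Or.inr ?_)⟩
      rw [← hl, ← pow_mul, eq_mul_inv_iff_mul_eq₀ hτ0, ← pow_succ]; congr 1; omega

end Pool.Agent.LeoD.H84
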